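import Pool.Agent.Q17.Hyp.Main

/-!
# Subnormal closed subsets and weak nilpotency of hypergroups

There is a finite hypergroup in which every closed subset is subnormal, and even strongly
subnormal, and whose centre is trivial, so that the upper central series stays at `{1}` and the
hypergroup is not weakly nilpotent.

It is the hypergroup `G // A` of double cosets, with `G` the affine group `x ↦ v + c x` of the field
with eight elements and `A` the group of the two translations `x ↦ x` and `x ↦ 1 + x`.
-/

namespace Pool.Agent.Results.MP_75e066_al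

open Q17.Hyp

/-- A finite hypergroup with all closed subsets subnormal (even strongly subnormal) that is not
weakly nilpotent: its centre is `{1}`, and `Z_n(H) = {1} ≠ H` for every `n`. -/
theorem StronglySubnormalNotNilpotent.result :
    ∃ (H : Type) (_ : Finite H) (𝓗 : Hypergroup H),
      (∀ F : Set H, 𝓗.IsClosed F → 𝓗.Subnormal F) ∧
      (∀ F : Set H, 𝓗.IsClosed F → 𝓗.StronglySubnormal F) ∧
      𝓗.centre = {𝓗.one} ∧
      (∀ n : ℕ, 𝓗.upperCentral n = {𝓗.one} ∧ 𝓗.upperCentral n ≠ Set.univ) ∧
      ¬ 𝓗.WeaklyNilpotent := by
  have h8 : Nat.card (GaloisField 2 3) = 8 := by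
    rw [GaloisField.card 2 3 (by norm_num)]
    norm_num
  have hfin : Finite (GaloisField 2 3) := Nat.finite_of_card_ne_zero (by rw [h8]; norm_num)
  have hne : ∀ n : ℕ, (hyp (A (GaloisField 2 3))).upperCentral n ≠ Set.univ := by
    intro n
    rw [upperCentral_eq h8]
    exact one_ne_univ h8
  refine ⟨DC (A (GaloisField 2 3)), ?_, hyp (A (GaloisField 2 3)),
    fun F hF => (all_subnormal h8 F hF).1, fun F hF => (all_subnormal h8 F hF).2,
    centre_eq h8, fun n => ⟨upperCentral_eq h8 n, hne n⟩, ?_⟩
  · exact Finite.of_surjective (mk (A (GaloisField 2 3))) mk_surj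
  · rintro ⟨n, hn⟩
    exact hne n hn

end Pool.Agent.Results.MP_75e066_al
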